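import Pool.Agent.Helper50.SupportLat

/-!
# Support sets and operators into `C(K)` with lattice-like range

Let `K` be compact and let `T : X → C(K)` be a bounded linear operator on a real normed space
whose range has density greater than `ℵ₁` and has the following property, shared by all vector
sublattices of `C(K)`: if `T x₁` and `T x₂` are positive at `k`, there is `y` with `T y ≥ 0`,
`T y` positive at `k` and `T y = 0` wherever `T x₁ ≤ 0` or `T x₂ ≤ 0`.  Then `X` contains a
support set.
-/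

set_option autoImplicit false

open Set Cardinal

namespace Pool.Agent.Results.MP_3e6028_an.LatticeRange

open Pool.Agent.Helper50.Supp

universe u

theorem result {X K : Type u} [NormedAddCommGroup X] [NormedSpace ℝ X] [TopologicalSpace K]
    [CompactSpace K] (T : X →L[ℝ] C(K, ℝ))
    (hT : ∀ s : Set X, range T ⊆ closure (T '' s) → ℵ₁ < #s)
    (hL : ∀ (x₁ x₂ : X) (k : K), 0 < T x₁ k → 0 < T x₂ k → ∃ y : X, (∀ k', 0 ≤ T y k') ∧
      0 < T y k ∧ ∀ k', 0 < T y k' → 0 < T x₁ k' ∧ 0 < T x₂ k') :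
    ∃ C : Set X, C.Nonempty ∧ IsClosed C ∧ Convex ℝ C ∧
      ∀ x ∈ C, ∃ f : X →L[ℝ] ℝ, (∀ y ∈ C, f x ≤ f y) ∧ ∃ y ∈ C, f x < f y := by
  refine hasSupportSet_of_latticeLike T (fun s hs => ?_) hL
  have h1 : (ℵ_ 2 : Cardinal.{u}) = Order.succ ℵ₁ := by
    rw [succ_aleph, one_add_one_eq_two]
  rw [h1]
  exact Order.succ_le_of_lt (hT s hs)

end Pool.Agent.Results.MP_3e6028_an.LatticeRange
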