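import Pool.Agent.Helper67.Supp.Sep

/-!
# Banach spaces without support sets: reduction to separable compact spaces

Let `κ ≥ ℵ₁`, let `K` be a compact Hausdorff space and let `T : X → C(K)` be a bounded linear
operator on a real normed space such that the image of a set `E ⊆ X` is not contained in the
closure of the image of any set of cardinality at most `κ`.  Then `X` contains a support set, or
for every `Y ⊆ X` of cardinality at most `κ` there are two sequences `a`, `b` in `K` which `Y`
does not distinguish, whose closure is not a tame space, and whose differences separate the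
elements of `E` from all sets of cardinality at most `κ`.
-/

set_option autoImplicit false

open Set Cardinal

namespace Pool.Agent.Results.MP_3e6028_an.SeparableReduction

open Pool.Agent.Helper50.Supp Pool.Agent.Helper67.Supp

universe u

/-- `X` contains a support set: a nonempty closed convex set every point of which minimises
some continuous linear functional which is not constant on the set. -/
def ContainsSupportSet (X : Type u) [NormedAddCommGroup X] [NormedSpace ℝ X] : Prop :=
  ∃ C : Set X, C.Nonempty ∧ IsClosed C ∧ Convex ℝ C ∧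
    ∀ x ∈ C, ∃ f : X →L[ℝ] ℝ, (∀ y ∈ C, f x ≤ f y) ∧ ∃ y ∈ C, f x < f y

theorem result {X K : Type u} [NormedAddCommGroup X] [NormedSpace ℝ X] [TopologicalSpace K]
    [CompactSpace K] [T2Space K] {κ : Cardinal.{u}} (hκ : ℵ₁ ≤ κ)
    (T : X →L[ℝ] C(K, ℝ)) (E : Set X)
    (hE : ∀ s : Set X, T '' E ⊆ closure (T '' s) → κ < #s) :
    ContainsSupportSet X ∨
    ∀ Y : Set X, #Y ≤ κ → ∃ a b : ℕ → K, (∀ y ∈ Y, ∀ n, T y (a n) = T y (b n)) ∧
      ¬ Tame ℵ₀ (Order.succ κ) (closure (range a ∪ range b)) ∧
      ∀ s : Set X, #s ≤ κ → ∃ x ∈ E, ∃ c : ℝ, 0 < c ∧ ∀ y ∈ s, ∃ n,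
        c < T x (a n) - T x (b n) ∧ T y (a n) - T y (b n) ≤ 0 := by
  by_cases h : ContainsSupportSet X
  · exact Or.inl h
  · exact Or.inr fun Y hY => exists_pairs_tame hκ T E hE h Y hY

end Pool.Agent.Results.MP_3e6028_an.SeparableReduction
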