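import Pool.Agent.Helper50.SupportPli

/-!
# Support sets and operators into spaces with a norming set of small functionals

Let `μ > ℵ₁` be a regular cardinal, let `Y` be a real Banach space with a linearly dense set `Λ`
such that the functionals which are nonzero at fewer than `μ` elements of `Λ` are norming (every
Plichko space is of this kind), and let `T : X → Y` be a bounded linear operator on a real
normed space whose range has density at least `μ`.  Then `X` has a biorthogonal system of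
cardinality `μ`, and so it contains a support set.
-/

set_option autoImplicit false

open Set Cardinal

namespace Pool.Agent.Results.MP_3e6028_an.SmallNorming

open Pool.Agent.Helper50.Supp

universe u

theorem result {X Y : Type u} [NormedAddCommGroup X] [NormedSpace ℝ X] [NormedAddCommGroup Y]
    [NormedSpace ℝ Y] [CompleteSpace Y] {μ : Cardinal.{u}} (hμ : μ.IsRegular) (hμ1 : ℵ₁ < μ)
    (Λ : Set Y) (hΛ : Dense (Submodule.span ℝ Λ : Set Y))
    (hF : ∃ r : ℝ, 0 < r ∧ ∀ y : Y, ∃ f : Y →L[ℝ] ℝ, #{v | v ∈ Λ ∧ f v ≠ 0} < μ ∧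
      ‖f‖ ≤ 1 ∧ r * ‖y‖ ≤ |f y|)
    (T : X →L[ℝ] Y) (hT : ∀ s : Set X, range T ⊆ closure (T '' s) → μ ≤ #s) :
    (∃ (ι : Type u) (z : ι → X) (f : ι → X →L[ℝ] ℝ), #ι = μ ∧ (∀ i, f i (z i) = 1) ∧
      ∀ i j, i ≠ j → f i (z j) = 0) ∧
    ∃ C : Set X, C.Nonempty ∧ IsClosed C ∧ Convex ℝ C ∧
      ∀ x ∈ C, ∃ f : X →L[ℝ] ℝ, (∀ y ∈ C, f x ≤ f y) ∧ ∃ y ∈ C, f x < f y := by
  obtain ⟨z, f, h1, h0⟩ := exists_biorth_small hμ hμ1 (Λ := Λ) ⟨fun y => hΛ y, hF⟩ T hT
  have hι : #μ.ord.ToType = μ := by rw [mk_toType, card_ord]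
  exact ⟨⟨μ.ord.ToType, z, f, hι, h1, h0⟩,
    hasSupportSet_of_biorth (by rw [hι]; exact hμ1.le) z f h1 h0⟩

end Pool.Agent.Results.MP_3e6028_an.SmallNorming
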