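import Pool.Agent.Helper67.Supp.Tame

/-!
# Biorthogonal systems and support sets: operators into `C(K)` for tame compact spaces `K`

`Tame κ μ` (defined in `Pool.Agent.Helper67.Supp.Tame`) is the least class of compact Hausdorff
spaces which contains the spaces whose points are separated by fewer than `μ` continuous
functions and which is closed under

* total spaces of continuous maps onto (or into) compact Hausdorff spaces of hereditary Lindelöf
  degree at most `κ` all of whose fibres are in the class,
* arbitrary products,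
* continuous Hausdorff images,
* spaces with a system of retractions (a retractional skeleton) with ranges in the class.

If `μ > κ⁺` is regular, `K` is in the class and `T : X → C(K)` is a bounded linear operator whose
range has density at least `μ`, then `X` has a biorthogonal system of cardinality `μ`, and so it
contains a support set.
-/

set_option autoImplicit false

open Set Cardinal

namespace Pool.Agent.Results.MP_3e6028_an.TameCompacta

open Pool.Agent.Helper50.Supp Pool.Agent.Helper67.Supp

universe u

theorem result {X K : Type u} [NormedAddCommGroup X] [NormedSpace ℝ X] [TopologicalSpace K]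
    [CompactSpace K] {κ μ : Cardinal.{u}} (hκ : ℵ₀ ≤ κ) (hμ : μ.IsRegular)
    (hκμ : Order.succ κ < μ) (hK : Tame κ μ K)
    (T : X →L[ℝ] C(K, ℝ)) (hT : ∀ s : Set X, range T ⊆ closure (T '' s) → μ ≤ #s) :
    (∃ (ι : Type u) (z : ι → X) (f : ι → X →L[ℝ] ℝ), #ι = μ ∧ (∀ i, f i (z i) = 1) ∧
      ∀ i j, i ≠ j → f i (z j) = 0) ∧
    ∃ C : Set X, C.Nonempty ∧ IsClosed C ∧ Convex ℝ C ∧
      ∀ x ∈ C, ∃ f : X →L[ℝ] ℝ, (∀ y ∈ C, f x ≤ f y) ∧ ∃ y ∈ C, f x < f y := by
  obtain ⟨z, f, h1, h0⟩ := biorth_of_tame hκ hμ hκμ hK T hT
  have hι : #μ.ord.ToType = μ := by rw [mk_toType, card_ord]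
  have hμ1 : ℵ₁ ≤ μ := by
    rw [← succ_aleph0]
    exact (Order.succ_le_succ hκ).trans hκμ.le
  exact ⟨⟨μ.ord.ToType, z, f, hι, h1, h0⟩, hasSupportSet_of_biorth (by rwa [hι]) z f h1 h0⟩

end Pool.Agent.Results.MP_3e6028_an.TameCompacta
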